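import Mathlib
import Pool.Agent.Q6.PencilMatrix

/-!
# Commuting coefficients after left multiplication for singular pencils

The affirmative answer to Q1.  Outline: for the singular part, `E` has a polynomial Toeplitz block
`Φ` (from the rows of the blocks `L_δ^T` to their columns), the transpose of such a block (for the
blocks `L_ε`) and a Hankel block; then `A E B = B E A`.  The inequalities allow one to choose `Φ`
surjective: the kernel is controlled by polynomial vectors `σ`, called sticks, such that `z ^ k σ`,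
`k < ℓ`, lies in it, and each new row is tiled by sticks of total length `δ + e`, where the overlap
gives back a stick of length `e`.  If `Φ` and the other Toeplitz block are onto, then for a Hankel
block for which the kernel of `E` has minimal dimension `E` is invertible.
-/

set_option autoImplicit false

open Matrix

namespace Pool.Agent.Results.MP_3c4fb9_al.CommutingCoefficients

variable {ι κ ρ n : Type} [Fintype ι] [DecidableEq ι] [Fintype κ] [DecidableEq κ]
  [Fintype ρ] [DecidableEq ρ] [Fintype n] [DecidableEq n]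

/-- The rows of the pencil with blocks `L_{δ i}^T` (`i ∈ ι`), `L_{ε c}` (`c ∈ κ`) and a regular
pencil with index set `ρ`. -/
abbrev Row (δ : ι → ℕ) (ε : κ → ℕ) (ρ : Type) : Type :=
  ((Σ i, Fin (δ i + 1)) ⊕ (Σ c, Fin (ε c))) ⊕ ρ

/-- The columns of this pencil. -/
abbrev Col (δ : ι → ℕ) (ε : κ → ℕ) (ρ : Type) : Type :=
  ((Σ i, Fin (δ i)) ⊕ (Σ c, Fin (ε c + 1))) ⊕ ρ

/-- The constant coefficient of the direct sum of the blocks `L_{ε c}`: the `ε × (ε + 1)` matrices
with `1` in the positions `(i, i + 1)`. -/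
def shiftBlocks (ε : κ → ℕ) : Matrix (Σ c, Fin (ε c)) (Σ c, Fin (ε c + 1)) ℂ :=
  fun r s => if r.1 = s.1 ∧ s.2.val = r.2.val + 1 then 1 else 0

/-- The coefficient of `λ` of the direct sum of the blocks `L_{ε c}`: the `ε × (ε + 1)` matrices
with `1` in the positions `(i, i)`. -/
def diagBlocks (ε : κ → ℕ) : Matrix (Σ c, Fin (ε c)) (Σ c, Fin (ε c + 1)) ℂ :=
  fun r s => if r.1 = s.1 ∧ s.2.val = r.2.val then 1 else 0

/-- The constant coefficient of the canonical pencil. -/
def canA (δ : ι → ℕ) (ε : κ → ℕ) (A₀ : Matrix ρ ρ ℂ) : Matrix (Row δ ε ρ) (Col δ ε ρ) ℂ :=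
  fromBlocks (fromBlocks (shiftBlocks δ)ᵀ 0 0 (shiftBlocks ε)) 0 0 A₀

/-- The coefficient of `λ` of the canonical pencil. -/
def canB (δ : ι → ℕ) (ε : κ → ℕ) (B₀ : Matrix ρ ρ ℂ) : Matrix (Row δ ε ρ) (Col δ ε ρ) ℂ :=
  fromBlocks (fromBlocks (diagBlocks δ)ᵀ 0 0 (diagBlocks ε)) 0 0 B₀

/-- Let `A + λ B` be a square pencil which is strictly equivalent (by `S`, `T`) to the direct sum
of blocks `L_{δ i}^T`, `L_{ε c}` and a regular pencil `A₀ + λ B₀`.  If for each `d` the number of
indices with `δ i = d`, times `d`, is at most the number of indices with `δ i < d`, and the same is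
true for `ε`, then there is an invertible `E` such that `E A` and `E B` commute. -/
theorem result (δ : ι → ℕ) (ε : κ → ℕ) (A₀ B₀ : Matrix ρ ρ ℂ)
    (hreg : ∃ t : ℂ, (A₀ + t • B₀).det ≠ 0) (A B S T : Matrix n n ℂ)
    (r : Row δ ε ρ ≃ n) (c : Col δ ε ρ ≃ n) (hS : IsUnit S) (hT : IsUnit T)
    (hA : S * A * T = (canA δ ε A₀).submatrix r.symm c.symm)
    (hB : S * B * T = (canB δ ε B₀).submatrix r.symm c.symm)
    (hδ : ∀ d, d * (Finset.univ.filter fun i => δ i = d).card
      ≤ (Finset.univ.filter fun i => δ i < d).card)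
    (hε : ∀ d, d * (Finset.univ.filter fun i => ε i = d).card
      ≤ (Finset.univ.filter fun i => ε i < d).card) :
    ∃ E : Matrix n n ℂ, IsUnit E ∧ Commute (E * A) (E * B) := by
  obtain ⟨Φ, hΦ1, hΦ2⟩ := Pool.Agent.Q6.PencilSticks.exists_toeplitz (K := ℂ) δ hδ
  obtain ⟨Ψ, hΨ1, hΨ2⟩ := Pool.Agent.Q6.PencilSticks.exists_toeplitz (K := ℂ) ε hε
  have l1 := fun u => Pool.Agent.Q6.PencilMatrix.left_of_surj _
    (Pool.Agent.Q6.PencilMatrix.Tp_surj δ Φ hΦ2) u
  have l2 := fun u => Pool.Agent.Q6.PencilMatrix.left_of_surj _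
    (Pool.Agent.Q6.PencilMatrix.Tp_surj ε Ψ hΨ2) u
  have hcard : Fintype.card ((Σ i, Fin (δ i + 1)) ⊕ (Σ c, Fin (ε c)))
      = Fintype.card ((Σ i, Fin (δ i)) ⊕ (Σ c, Fin (ε c + 1))) := by
    have h1 := Fintype.card_congr (r.trans c.symm)
    rw [Fintype.card_sum, Fintype.card_sum (α := (Σ i, Fin (δ i)) ⊕ (Σ c, Fin (ε c + 1)))] at h1
    omega
  obtain ⟨h, hh⟩ := Pool.Agent.Q6.PencilMatrix.exists_hankel δ ε Φ Ψ
    (Fintype.equivOfCardEq hcard) l1 l2
  have hcomm := Pool.Agent.Q6.PencilMatrix.Em_comm δ ε Φ Ψ h hΦ1 hΨ1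
  set E₁ := Pool.Agent.Q6.PencilMatrix.Em δ ε Φ Ψ h with hE₁
  obtain ⟨t, ht⟩ := hreg
  set P := A₀ + t • B₀ with hP
  have hPu : IsUnit P.det := isUnit_iff_ne_zero.2 ht
  have hcomm₀ : A₀ * P⁻¹ * B₀ = B₀ * P⁻¹ * A₀ := by
    have hA₀ : A₀ = P - t • B₀ := by rw [hP]; simp
    rw [hA₀, Matrix.sub_mul, Matrix.mul_nonsing_inv _ hPu, Matrix.mul_sub, Matrix.mul_assoc B₀,
      Matrix.nonsing_inv_mul _ hPu, Matrix.sub_mul]
    simp
  set E₂ : Matrix (Col δ ε ρ) (Row δ ε ρ) ℂ := fromBlocks E₁ 0 0 P⁻¹ with hE₂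
  have hcomm₂ : canA δ ε A₀ * E₂ * canB δ ε B₀ = canB δ ε B₀ * E₂ * canA δ ε A₀ := by
    rw [hE₂, canA, canB]
    simp only [fromBlocks_multiply (A := fromBlocks _ _ _ _),
      fromBlocks_multiply (A := fromBlocks _ _ _ _ * _), Matrix.zero_mul, Matrix.mul_zero, add_zero,
      zero_add, hcomm₀]
    congr 1
  have hinj : ∀ v, E₂ *ᵥ v = 0 → v = 0 := by
    intro v hv
    have hv' : v = Sum.elim (v ∘ Sum.inl) (v ∘ Sum.inr) := by ext x; cases x <;> rfl
    rw [hv', hE₂, fromBlocks_mulVec] at hv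
    have e1 : E₁ *ᵥ (v ∘ Sum.inl) = 0 := by
      ext x
      have := congrFun hv (Sum.inl x)
      simpa using this
    have e2 : P⁻¹ *ᵥ (v ∘ Sum.inr) = 0 := by
      ext x
      have := congrFun hv (Sum.inr x)
      simpa using this
    have e3 := hh _ e1
    have e4 : v ∘ Sum.inr = 0 := by
      have := congrArg (fun w => P *ᵥ w) e2
      simpa [Matrix.mulVec_mulVec, Matrix.mul_nonsing_inv _ hPu] using this
    rw [hv', e3, e4]
    ext x; cases x <;> rfl
  set E' := E₂.submatrix c.symm r.symm with hE'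
  have hE'u : IsUnit E' := by
    rw [← Matrix.mulVec_injective_iff_isUnit]
    change Function.Injective (Matrix.mulVecLin E')
    rw [injective_iff_map_eq_zero (Matrix.mulVecLin E')]
    intro v hv
    rw [mulVecLin_apply, hE', Matrix.submatrix_mulVec_equiv] at hv
    have e1 : E₂ *ᵥ (v ∘ r) = 0 := by
      ext x
      have := congrFun hv (c x)
      simpa using this
    have e2 := hinj _ e1
    ext x
    have := congrFun e2 (r.symm x)
    simpa using this
  refine ⟨T * E' * S, (hT.mul hE'u).mul hS, ?_⟩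
  have key : S * A * T * E' * (S * B * T) = S * B * T * E' * (S * A * T) := by
    rw [hA, hB, hE', Matrix.submatrix_mul_equiv, Matrix.submatrix_mul_equiv,
      Matrix.submatrix_mul_equiv, Matrix.submatrix_mul_equiv, hcomm₂]
  have key2 : T * E' * S * A * (T * E' * S * B) * T = T * E' * S * B * (T * E' * S * A) * T := by
    have e1 : T * E' * S * A * (T * E' * S * B) * T = T * E' * (S * A * T * E' * (S * B * T)) := by
      simp only [Matrix.mul_assoc]
    have e2 : T * E' * S * B * (T * E' * S * A) * T = T * E' * (S * B * T * E' * (S * A * T)) := by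
      simp only [Matrix.mul_assoc]
    rw [e1, e2, key]
  exact hT.mul_right_cancel key2

end Pool.Agent.Results.MP_3c4fb9_al.CommutingCoefficients
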